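import Mathlib
import Pool.Agent.H32.Sid

namespace Pool.Agent.Results.MP_30cdc8_co.LinearExponent

open Finset Pool.Agent.H32.Sid
open scoped BigOperators

/-- An r-graph on the vertex set Fin n. -/
structure RGraph (r n : ℕ) where
  edges : Finset (Finset (Fin n))
  card_eq : ∀ e ∈ edges, e.card = r

/-- r-partite: a split into r parts such that each edge meets each part in exactly one vertex. -/
def IsPartite {r n : ℕ} (F : RGraph r n) : Prop :=
  ∃ c : Fin n → Fin r, ∀ e ∈ F.edges, ∀ i : Fin r, ∃! v, v ∈ e ∧ c v = i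

/-- maximum degree at most Δ -/
def MaxDegLe {r n : ℕ} (F : RGraph r n) (Δ : ℕ) : Prop :=
  ∀ v : Fin n, (F.edges.filter fun e => v ∈ e).card ≤ Δ

/-- homomorphism density -/
noncomputable def homDensity {r n N : ℕ} (F : RGraph r n) (H : RGraph r N) : ℝ :=
  ((Finset.univ.filter fun φ : Fin n → Fin N => ∀ e ∈ F.edges, e.image φ ∈ H.edges).card : ℝ) /
    (N : ℝ) ^ n

/-- the r-graph with r vertices and one edge -/
def singleEdge (r : ℕ) : RGraph r r where
  edges := {Finset.univ}
  card_eq := by simp

/-- the set whose supremum is the Sidorenko exponent -/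
def exponentSet {r n : ℕ} (F : RGraph r n) : Set ℝ :=
  {s | 0 ≤ s ∧ ∃ (N : ℕ) (H : RGraph r N),
    homDensity F H = homDensity (singleEdge r) H ^ s ∧ 0 < homDensity (singleEdge r) H ^ s}

theorem homDensity_eq {r n N : ℕ} (F : RGraph r n) (H : RGraph r N) :
    homDensity F H = 𝔼 φ : Fin n → Fin N, ind (∀ e ∈ F.edges, e.image φ ∈ H.edges) := by
  rw [Fintype.expect_eq_sum_div_card, homDensity]
  congr 1
  · rw [Finset.card_filter]
    push_cast
    refine sum_congr rfl fun φ _ => ?_
    split_ifs with h
    · exact (ind_of h).symm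
    · exact (ind_of_not h).symm
  · simp

theorem result (r : ℕ) (hr : 2 ≤ r) : ∃ f : ℕ → ℕ, ∀ (Δ n : ℕ) (F : RGraph r n),
    IsPartite F → MaxDegLe F Δ → ∀ s ∈ exponentSet F, s ≤ (f Δ : ℝ) * (F.edges.card : ℝ) := by
  refine ⟨fun Δ => expo Δ r * r, ?_⟩
  rintro Δ n F ⟨c, hc⟩ hdeg s ⟨hs0, N, H, h1, h2⟩
  have hK : homDensity (singleEdge r) H
      = 𝔼 x : Fin r → Fin N, ind (univ.image x ∈ H.edges) := by
    rw [homDensity_eq]
    simp [singleEdge]
  rcases eq_or_lt_of_le hs0 with rfl | hspos
  · positivity
  have hp0 : 0 ≤ homDensity (singleEdge r) H := by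
    rw [hK]; exact expect_nonneg fun _ _ => ind_nonneg _
  have hp : 0 < homDensity (singleEdge r) H := by
    rcases eq_or_lt_of_le hp0 with h | h
    · rw [← h, Real.zero_rpow hspos.ne'] at h2
      exact absurd h2 (lt_irrefl _)
    · exact h
  have hN : Nonempty (Fin N) := by
    rcases Nat.eq_zero_or_pos N with rfl | h
    · exfalso
      have : homDensity (singleEdge r) H = 0 := by
        unfold homDensity
        rw [Nat.cast_zero, zero_pow (by omega), div_zero]
      linarith
    · exact ⟨⟨0, h⟩⟩
  have hp1 : homDensity (singleEdge r) H < 1 := by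
    rw [hK]
    refine expect_lt (fun x _ => ind_le_one _) ⟨fun _ => hN.some, mem_univ _, ?_⟩
    rw [ind_of_not]
    · norm_num
    · intro h
      have h3 := H.card_eq _ h
      have h4 : (univ.image fun _ : Fin r => hN.some) ⊆ {hN.some} := by
        intro x hx
        obtain ⟨_, _, rfl⟩ := mem_image.1 hx
        exact mem_singleton_self _
      have := card_le_card h4
      rw [card_singleton] at this
      omega
  choose v hv hv' using hc
  let e : F.edges → Fin r → Fin n := fun i => v i.1 i.2
  have himg : ∀ i : F.edges, univ.image (e i) = i.1 := by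
    intro i
    ext x
    simp only [mem_image, mem_univ, true_and]
    constructor
    · rintro ⟨a, rfl⟩
      exact (hv i.1 i.2 a).1
    · intro hx
      exact ⟨c x, (hv' i.1 i.2 (c x) x ⟨hx, rfl⟩).symm⟩
  have key := strong_bound r Δ (Fin n) F.edges e
    (by
      intro i j a b h
      rw [← (hv i.1 i.2 a).2, ← (hv j.1 j.2 b).2]
      exact congrArg c h)
    (by
      intro w a
      refine le_trans ?_ (hdeg w)
      refine card_le_card_of_injOn (fun i => i.1) ?_ (fun i _ j _ h => Subtype.ext h)
      intro i hi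
      simp only [coe_filter, mem_univ, true_and, Set.mem_ofPred_eq] at hi ⊢
      exact ⟨i.2, hi ▸ (hv i.1 i.2 a).1⟩)
    (Fin N) (fun x => univ.image x ∈ H.edges) (hK ▸ hp)
  have ht : homDensity F H
      = 𝔼 φ : Fin n → Fin N, ind (∀ i : F.edges, univ.image (φ ∘ e i) ∈ H.edges) := by
    rw [homDensity_eq]
    refine expect_congr rfl fun φ _ => ?_
    congr 1
    simp only [← image_image, himg, Subtype.forall]
  rw [← hK, ← ht, h1, ← Real.rpow_natCast, Real.rpow_le_rpow_left_iff_of_base_lt_one hp hp1] at key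
  refine key.trans (le_of_eq ?_)
  simp only [Fintype.card_coe]
  push_cast
  ring

end Pool.Agent.Results.MP_30cdc8_co.LinearExponent
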